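import Pool.Agent.Helper69.DC.Goals

set_option autoImplicit false

namespace Pool.Agent.Helper83.DC

open Finset ComplexConjugate Pool.Agent.Helper69.DC

theorem eq_zero_of_null {N : ℕ} (x : Fin (N + 1) → ℂ) (h : hf x x = 0) (h0 : x 0 = 0) : x = 0 := by
  unfold hf at h
  rw [h0, zero_mul, zero_sub, neg_eq_zero] at h
  simp only [Complex.mul_conj] at h
  have h1 : ∑ j : Fin N, Complex.normSq (x j.succ) = 0 := by exact_mod_cast h
  rw [sum_eq_zero_iff_of_nonneg fun j _ => Complex.normSq_nonneg _] at h1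
  funext i
  refine Fin.cases ?_ (fun j => ?_) i
  · exact h0
  · have := h1 j (mem_univ j)
    rwa [Complex.normSq_eq_zero] at this

theorem hf_comb {N : ℕ} (x y : Fin (N + 1) → ℂ) (c : ℂ) :
    hf (y - c • x) (y - c • x) =
      hf y y - c * hf x y - conj c * hf y x + c * conj c * hf x x := by
  unfold hf
  have e : ∑ j : Fin N, (y - c • x) j.succ * conj ((y - c • x) j.succ) =
      ∑ j : Fin N, y j.succ * conj (y j.succ) - c * ∑ j : Fin N, x j.succ * conj (y j.succ) -
        conj c * ∑ j : Fin N, y j.succ * conj (x j.succ) +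
        c * conj c * ∑ j : Fin N, x j.succ * conj (x j.succ) := by
    rw [mul_sum, mul_sum, mul_sum, ← sum_sub_distrib, ← sum_sub_distrib, ← sum_add_distrib]
    refine sum_congr rfl fun j _ => ?_
    simp only [Pi.sub_apply, Pi.smul_apply, smul_eq_mul, map_sub, map_mul]
    ring
  rw [e]
  simp only [Pi.sub_apply, Pi.smul_apply, smul_eq_mul, map_sub, map_mul]
  ring

theorem hf_conj {N : ℕ} (x y : Fin (N + 1) → ℂ) : hf x y = conj (hf y x) := by
  unfold hf
  simp only [map_sub, map_mul, map_sum, Complex.conj_conj]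
  congr 1
  · ring
  · exact sum_congr rfl fun j _ => by ring

theorem g_hf2 : Pool.Agent.Helper69.DC.G_HF2 := by
  intro N x y hx hxx hyy hyx
  have hx0 : x 0 ≠ 0 := fun h => hx (eq_zero_of_null x hxx h)
  have hxy : hf x y = 0 := by rw [hf_conj, hyx, map_zero]
  refine ⟨y 0 / x 0, ?_⟩
  have h1 : hf (y - (y 0 / x 0) • x) (y - (y 0 / x 0) • x) = 0 := by
    rw [hf_comb, hyy, hxy, hyx, hxx]
    ring
  have h2 : (y - (y 0 / x 0) • x) 0 = 0 := by
    simp only [Pi.sub_apply, Pi.smul_apply, smul_eq_mul]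
    field_simp
    ring
  exact sub_eq_zero.1 (eq_zero_of_null _ h1 h2)

end Pool.Agent.Helper83.DC
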